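import Pool.Agent.ChompAx.Base

/-!
# Chomp on `ℕ ^ d`: axes and a finite rest

A position of Chomp is a set `R` of points of `ℕ ^ d`; a move chooses a point `q ≠ 0` of `R` and
removes all points `x ≥ q`. Let `R` have infinitely many points on each of `r` coordinate axes, and
only finitely many points which are on none of these axes. Then the Sprague-Grundy value of `R` is
`ω * (r mod 2)` plus the value of the finite set of the points of `R` on none of the axes. The player
to move loses if and only if `r` is even and the value of this finite set is `0`. As `0` is not a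
point of the finite set (if `r ≥ 1`), its value is the one of the finite game with normal play.

Proof: a move on an axis leaves `r - 1` axes with infinitely many points, so the value becomes
finite if `r` is odd and infinite if `r` is even (hand-in `OddRays`). A move off the axes does not
touch the axes. Induction on the number of points off the axes.
-/

set_option autoImplicit false

open Ordinal

namespace Pool.Agent.Results.MP_69fc81_co.AxesSplit

open Pool.Agent.ChompAx

variable {d : ℕ}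

/-- A point on none of the axes of `I` is below no point of these axes. -/
theorem off_all {I : Finset (Fin d)} {q x : Fin d → ℕ} (hq : q ∉ ⋃ j ∈ I, ray j (0 : Fin d → ℕ))
    (hx : x ∈ ⋃ j ∈ I, ray j (0 : Fin d → ℕ)) : ¬ q ≤ x := by
  simp only [Set.mem_iUnion, not_exists] at hq hx
  obtain ⟨j, hj, hxj⟩ := hx
  intro hle
  refine hq j hj fun k hk => ?_
  have h1 := hle k
  rw [hxj k hk] at h1
  exact Nat.le_zero.1 h1

theorem split {G : Set (Fin d → ℕ) → Ordinal.{0}} (hG : IsGrundy G) (I : Finset (Fin d)) :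
    ∀ (n : ℕ) (R : Set (Fin d → ℕ)), (∀ j ∈ I, (R ∩ ray j 0).Infinite) →
      (R \ ⋃ j ∈ I, ray j 0).Finite → (R \ ⋃ j ∈ I, ray j 0).ncard = n →
      G R = ω * ((I.card % 2 : ℕ) : Ordinal.{0}) + G (R \ ⋃ j ∈ I, ray j 0) := by
  intro n
  induction n using Nat.strong_induction_on with
  | _ n ih =>
  intro R hinf hfin hn
  -- the value of the rest is finite
  have hF : G (R \ ⋃ j ∈ I, ray j 0) < ω :=
    (axes hG 0 ∅ (R \ ⋃ j ∈ I, ray j 0) rfl (by simp) (by simpa using hfin)).2 (by simp)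
  -- moves off the axes
  have hoff : ∀ q ∈ R, q ∉ (⋃ j ∈ I, ray j (0 : Fin d → ℕ)) →
      G (R \ {x | q ≤ x}) = ω * ((I.card % 2 : ℕ) : Ordinal.{0}) +
        G ((R \ ⋃ j ∈ I, ray j 0) \ {x | q ≤ x}) := by
    intro q hq hqA
    have h1 : (R \ {x | q ≤ x}) \ ⋃ j ∈ I, ray j 0 =
        (R \ ⋃ j ∈ I, ray j (0 : Fin d → ℕ)) \ {x | q ≤ x} := by
      ext x
      simp only [Set.mem_sdiff]
      tauto
    have hlt : ((R \ {x | q ≤ x}) \ ⋃ j ∈ I, ray j (0 : Fin d → ℕ)).ncard < n := by
      rw [h1, ← hn]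
      refine Set.ncard_lt_ncard ⟨Set.sdiff_subset, fun h => ?_⟩ hfin
      exact (h ⟨hq, hqA⟩).2 (show q ≤ q from le_rfl)
    have h2 := ih _ hlt (R \ {x | q ≤ x}) (fun j hj => ?_) ?_ rfl
    · rw [h2, h1]
    · refine (hinf j hj).mono fun x hx => ⟨⟨hx.1, ?_⟩, hx.2⟩
      refine off_all hqA ?_
      simp only [Set.mem_iUnion]
      exact ⟨j, hj, hx.2⟩
    · rw [h1]
      exact hfin.sdiff
  -- moves on an axis
  have hon : ∀ q ∈ R, q ≠ 0 → q ∈ (⋃ j ∈ I, ray j (0 : Fin d → ℕ)) →
      (Odd I.card → G (R \ {x | q ≤ x}) < ω) ∧ (Even I.card → ω ≤ G (R \ {x | q ≤ x})) := by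
    intro q hq hq0 hqA
    simp only [Set.mem_iUnion] at hqA
    obtain ⟨j, hj, hqj⟩ := hqA
    have hpos : 0 < I.card := Finset.card_pos.2 ⟨j, hj⟩
    have h1 := axes hG (I.card - 1) (I.erase j) (R \ {x | q ≤ x})
      (Finset.card_erase_of_mem hj) (fun k hk => ?_) ?_
    · refine ⟨fun ho => h1.2 ?_, fun he => h1.1 ?_⟩
      · obtain ⟨m, hm⟩ := ho
        exact ⟨m, by omega⟩
      · obtain ⟨m, hm⟩ := he
        exact ⟨m - 1, by omega⟩
    · rw [Finset.mem_erase] at hk
      exact (hinf k hk.2).mono fun x hx =>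
        ⟨⟨hx.1, not_le_axis (off_axis hk.1.symm hqj hq0) hx.2⟩, hx.2⟩
    · refine (hfin.union (cut_finite hqj (R \ {x | q ≤ x}) fun x hx => hx.2)).subset
        fun x hx => ?_
      by_cases h2 : x ∈ ray j 0
      · exact Or.inr ⟨hx.1, h2⟩
      refine Or.inl ⟨hx.1.1, fun h3 => hx.2 ?_⟩
      simp only [Set.mem_iUnion] at h3 ⊢
      obtain ⟨k, hk, hxk⟩ := h3
      exact ⟨k, Finset.mem_erase.2 ⟨fun h => h2 (h ▸ hxk), hk⟩, hxk⟩
  rcases Nat.even_or_odd I.card with he | ho
  · -- an even number of axes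
    rw [Nat.even_iff.1 he] at hoff ⊢
    simp only [Nat.cast_zero, mul_zero, zero_add] at hoff ⊢
    refine le_antisymm ((hG R).2 fun q hq hq0 => ?_) (not_lt.1 fun hlt => ?_)
    · by_cases hqA : q ∈ (⋃ j ∈ I, ray j (0 : Fin d → ℕ))
      · exact fun h => absurd ((hon q hq hq0 hqA).2 he) (not_le.2 (h ▸ hF))
      · rw [hoff q hq hqA]
        exact hG.ne ⟨hq, hqA⟩ hq0
    · obtain ⟨q, hq, hq0, hqv⟩ := hG.exists_move hlt
      have h1 := hoff q hq.1 hq.2
      rw [hqv] at h1
      exact hG.ne hq.1 hq0 h1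
  · -- an odd number of axes
    rw [Nat.odd_iff.1 ho] at hoff ⊢
    simp only [Nat.cast_one, mul_one] at hoff ⊢
    have hge : ω ≤ G R := (axes hG _ I R rfl hinf hfin).1 ho
    refine le_antisymm ((hG R).2 fun q hq hq0 => ?_) (not_lt.1 fun hlt => ?_)
    · by_cases hqA : q ∈ (⋃ j ∈ I, ray j (0 : Fin d → ℕ))
      · have h1 := (hon q hq hq0 hqA).1 ho
        exact fun h => absurd (h ▸ h1) (not_lt.2 (le_add_right le_rfl))
      · rw [hoff q hq hqA]
        exact fun h => hG.ne (R := R \ ⋃ j ∈ I, ray j 0) ⟨hq, hqA⟩ hq0 (by simpa using h)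
    · have h2 : ω + (G R - ω) = G R := Ordinal.add_sub_cancel_of_le hge
      have h3 : G R - ω < G (R \ ⋃ j ∈ I, ray j 0) := by
        rw [← h2] at hlt
        exact lt_of_add_lt_add_left hlt
      obtain ⟨q, hq, hq0, hqv⟩ := hG.exists_move h3
      have h1 := hoff q hq.1 hq.2
      rw [hqv, h2] at h1
      exact hG.ne hq.1 hq0 h1

/-- **The axes and the rest add up.** Chomp on `ℕ ^ d` has exactly one Sprague-Grundy function `G`.
If the position `R` has infinitely many points on each axis `j ∈ I` and finitely many points on none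
of these axes, then `G R = ω * (r mod 2) + G S` where `r` is the number of these axes and `S` is the
finite set of the points of `R` on none of them. In particular the player to move loses (`G R = 0`)
if and only if `r` is even and `G S = 0`. -/
theorem result (d : ℕ) : ∃ G : Set (Fin d → ℕ) → Ordinal.{0}, IsGrundy G ∧
    (∀ H, IsGrundy H → H = G) ∧
    ∀ (I : Finset (Fin d)) (R : Set (Fin d → ℕ)), (∀ j ∈ I, (R ∩ ray j 0).Infinite) →
      (R \ ⋃ j ∈ I, ray j 0).Finite →
      G R = ω * ((I.card % 2 : ℕ) : Ordinal.{0}) + G (R \ ⋃ j ∈ I, ray j 0) ∧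
      (G R = 0 ↔ Even I.card ∧ G (R \ ⋃ j ∈ I, ray j 0) = 0) := by
  obtain ⟨G, hG⟩ := exists_grundy (d := d)
  refine ⟨G, hG, fun H hH => grundy_unique hH hG, fun I R hinf hfin => ?_⟩
  have h := split hG I _ R hinf hfin rfl
  refine ⟨h, ?_⟩
  rw [h]
  rcases Nat.even_or_odd I.card with he | ho
  · rw [Nat.even_iff.1 he]
    simp [he]
  · rw [Nat.odd_iff.1 ho]
    have h1 : ω + G (R \ ⋃ j ∈ I, ray j (0 : Fin d → ℕ)) ≠ 0 := by
      have h2 : (0 : Ordinal.{0}) < ω := omega0_pos
      exact (lt_of_lt_of_le h2 (le_add_right le_rfl)).ne'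
    simp [Nat.not_even_iff_odd.2 ho]

end Pool.Agent.Results.MP_69fc81_co.AxesSplit
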