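import Mathlib

/-!
# Chomp on `ℕ³`: only finitely many first moves can win

A position is a set `R` of triples, a move chooses `q ∈ R`, `q ≠ 0`, and leads to `R \ {r | q ≤ r}`. `Outcome P` says that `P` is
the set of the positions in which the player to move loses (as in the frozen statement). The set `Wins P R` of the winning moves
in a position `R` is a finite antichain. On the full board `ℕ³` it is invariant under all automorphisms of the order (permutations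
of the coordinates) and it contains none of `(1, 0, 0)`, `(2, 0, 0)`, `(1, 1, 0)`; and a point `q` which is not a winning first
move is a winning reply to only finitely many first moves.

Proof. If `p < p'` are both winning in `R`, then `p` is a move from the position after `p'` which leads to the position after `p`:
from a lost position to a lost position. Antichains in `ℕ³` are finite (Dickson). If `q` is a winning reply to `p` and is not a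
winning first move, then `p` is a winning reply to `q`. The replies to the three moves are `(0, 1, 1)`, `(0, 1, 0)`, `(0, 0, 1)`,
they lead to two infinite arms (pairing) or to two infinite rows.
-/

set_option autoImplicit false

namespace Pool.Agent.Results.MP_69fc81_co.FirstMoves

open Set

/-- `P` is the set of the positions in which the player to move loses. -/
def Outcome (P : Set (Set (ℕ × ℕ × ℕ))) : Prop :=
  ∀ R : Set (ℕ × ℕ × ℕ), R ∈ P ↔ ∀ q ∈ R, q ≠ 0 → R \ {r : ℕ × ℕ × ℕ | q ≤ r} ∉ P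

/-- The winning moves in the position `R`. -/
def Wins (P : Set (Set (ℕ × ℕ × ℕ))) (R : Set (ℕ × ℕ × ℕ)) : Set (ℕ × ℕ × ℕ) :=
  {p | p ∈ R ∧ p ≠ 0 ∧ R \ {r : ℕ × ℕ × ℕ | p ≤ r} ∈ P}

/-- `S` is reached from `R` by one move. -/
def Mv (S R : Set (ℕ × ℕ × ℕ)) : Prop := ∃ q ∈ R, q ≠ 0 ∧ S = R \ {r : ℕ × ℕ × ℕ | q ≤ r}

theorem mv_wf : WellFounded Mv := by
  rw [wellFounded_iff_isEmpty_descending_chain]
  refine ⟨fun ⟨f, h1⟩ => ?_⟩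
  choose q hq h0 hS using h1
  have hsub : ∀ m n, m ≤ n → f n ⊆ f m := by
    intro m n hmn
    induction n, hmn using Nat.le_induction with
    | base => exact subset_rfl
    | succ n _ ih =>
      refine subset_trans ?_ ih
      rw [hS n]
      exact sdiff_subset
  obtain ⟨m, n, hmn, hle⟩ := wellQuasiOrdered_le (α := ℕ × ℕ × ℕ) q
  have h2 : q n ∈ f (m + 1) := hsub (m + 1) n hmn (hq n)
  rw [hS m] at h2
  exact h2.2 hle

theorem outcome_unique {P Q : Set (Set (ℕ × ℕ × ℕ))} (hP : Outcome P) (hQ : Outcome Q) : Q = P := by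
  ext R
  induction R using mv_wf.induction with
  | _ R ih =>
    rw [hP R, hQ R]
    exact forall_congr' fun q => forall_congr' fun hq => forall_congr' fun h0 =>
      not_congr (ih _ ⟨q, hq, h0, rfl⟩)

theorem exists_outcome : ∃ P, Outcome P := by
  classical
  let L : Set (ℕ × ℕ × ℕ) → Prop := mv_wf.fix fun R ih =>
    ∀ (q : ℕ × ℕ × ℕ) (hq : q ∈ R) (h0 : q ≠ 0), ¬ ih (R \ {r : ℕ × ℕ × ℕ | q ≤ r}) ⟨q, hq, h0, rfl⟩
  refine ⟨{R | L R}, fun R => ?_⟩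
  show L R ↔ ∀ q ∈ R, q ≠ 0 → ¬ L (R \ {r : ℕ × ℕ × ℕ | q ≤ r})
  have h : L R = ∀ (q : ℕ × ℕ × ℕ) (hq : q ∈ R) (h0 : q ≠ 0), ¬ L (R \ {r : ℕ × ℕ × ℕ | q ≤ r}) :=
    mv_wf.fix_eq _ R
  rw [h]

theorem wins_antichain {P : Set (Set (ℕ × ℕ × ℕ))} (hP : Outcome P) (R : Set (ℕ × ℕ × ℕ)) :
    IsAntichain (· ≤ ·) (Wins P R) := by
  intro p hp p' hp' hne hle
  have h1 := (hP _).1 hp'.2.2 p ⟨hp.1, fun h => hne (le_antisymm hle h)⟩ hp.2.1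
  have h2 : (R \ {r | p' ≤ r}) \ {r | p ≤ r} = R \ {r | p ≤ r} := by
    ext r
    constructor
    · exact fun h => ⟨h.1.1, h.2⟩
    · exact fun h => ⟨⟨h.1, fun h' => h.2 (le_trans hle h')⟩, h.2⟩
  rw [h2] at h1
  exact h1 hp.2.2

theorem wins_finite {P : Set (Set (ℕ × ℕ × ℕ))} (hP : Outcome P) (R : Set (ℕ × ℕ × ℕ)) : (Wins P R).Finite := by
  by_contra hinf
  have : Infinite (Wins P R) := Set.infinite_coe_iff.2 hinf
  let f : ℕ ↪ Wins P R := Infinite.natEmbedding _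
  obtain ⟨m, n, hmn, hle⟩ := wellQuasiOrdered_le (α := ℕ × ℕ × ℕ) fun n => (f n : ℕ × ℕ × ℕ)
  have h1 : ((f m : Wins P R) : ℕ × ℕ × ℕ) = f n := by
    by_contra hne
    exact wins_antichain hP R (f m).2 (f n).2 hne hle
  exact (ne_of_lt hmn) (f.injective (Subtype.ext h1))

theorem replies_finite {P : Set (Set (ℕ × ℕ × ℕ))} (hP : Outcome P) {q : ℕ × ℕ × ℕ} (hq : q ∉ Wins P univ) :
    {p : ℕ × ℕ × ℕ | q ∈ Wins P (univ \ {r | p ≤ r})}.Finite := by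
  refine (wins_finite hP (univ \ {r | q ≤ r})).subset ?_
  rintro p ⟨h1, h2, h3⟩
  have hpq : ¬ p ≤ q := h1.2
  by_cases hle : q ≤ p
  · refine absurd ⟨mem_univ _, h2, ?_⟩ hq
    have e1 : ((univ : Set (ℕ × ℕ × ℕ)) \ {r | p ≤ r}) \ {r | q ≤ r} = univ \ {r | q ≤ r} := by
      ext r
      constructor
      · exact fun h => ⟨mem_univ _, h.2⟩
      · exact fun h => ⟨⟨mem_univ _, fun h' => h.2 (le_trans hle h')⟩, h.2⟩
    rwa [e1] at h3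
  · refine ⟨⟨mem_univ _, hle⟩, ?_, ?_⟩
    · rintro rfl
      exact hpq (show (0 : ℕ × ℕ × ℕ) ≤ q from bot_le)
    · have e1 : ((univ : Set (ℕ × ℕ × ℕ)) \ {r | p ≤ r}) \ {r | q ≤ r} =
          (univ \ {r | q ≤ r}) \ {r | p ≤ r} := by
        ext r
        constructor
        · exact fun h => ⟨⟨mem_univ _, h.2⟩, h.1.2⟩
        · exact fun h => ⟨⟨mem_univ _, h.2⟩, h.1.2⟩
      rwa [e1] at h3

theorem iso_zero (e : (ℕ × ℕ × ℕ) ≃o (ℕ × ℕ × ℕ)) : e 0 = 0 := by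
  have h : (0 : ℕ × ℕ × ℕ) = ⊥ := rfl
  rw [h]
  exact e.map_bot

theorem image_mv (e : (ℕ × ℕ × ℕ) ≃o (ℕ × ℕ × ℕ)) (R : Set (ℕ × ℕ × ℕ)) (q : ℕ × ℕ × ℕ) :
    e '' (R \ {r : ℕ × ℕ × ℕ | q ≤ r}) = (e '' R) \ {r : ℕ × ℕ × ℕ | e q ≤ r} := by
  ext r
  constructor
  · rintro ⟨s, hs, rfl⟩
    exact ⟨⟨s, hs.1, rfl⟩, fun h => hs.2 (e.le_iff_le.1 h)⟩
  · rintro ⟨⟨s, hs, rfl⟩, h⟩
    exact ⟨s, ⟨hs, fun h' => h (e.le_iff_le.2 h')⟩, rfl⟩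

theorem outcome_iso {P : Set (Set (ℕ × ℕ × ℕ))} (hP : Outcome P) (e : (ℕ × ℕ × ℕ) ≃o (ℕ × ℕ × ℕ))
    (R : Set (ℕ × ℕ × ℕ)) : e '' R ∈ P ↔ R ∈ P := by
  induction R using mv_wf.induction with
  | _ R ih =>
    rw [hP R, hP (e '' R)]
    constructor
    · intro h q hq h0
      rw [← ih _ ⟨q, hq, h0, rfl⟩, image_mv]
      refine h (e q) ⟨q, hq, rfl⟩ fun h' => h0 ?_
      rw [← iso_zero e] at h'
      exact e.injective h'
    · rintro h _ ⟨q, hq, rfl⟩ h0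
      have h0' : q ≠ 0 := by
        rintro rfl
        exact h0 (iso_zero e)
      rw [← image_mv, ih _ ⟨q, hq, h0', rfl⟩]
      exact h q hq h0'

theorem wins_iso {P : Set (Set (ℕ × ℕ × ℕ))} (hP : Outcome P) (e : (ℕ × ℕ × ℕ) ≃o (ℕ × ℕ × ℕ))
    {p : ℕ × ℕ × ℕ} (hp : p ∈ Wins P univ) : e p ∈ Wins P univ := by
  refine ⟨mem_univ _, fun h => hp.2.1 ?_, ?_⟩
  · rw [← iso_zero e] at h
    exact e.injective h
  · have h := (outcome_iso hP e _).2 hp.2.2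
    rwa [image_mv, image_univ, e.range_eq] at h

/-! ### Two arms and two rows -/

/-- Pairing: a symmetric part of the two arms of the first two coordinates is lost for the player to move. -/
theorem arms {P : Set (Set (ℕ × ℕ × ℕ))} (hP : Outcome P) (R : Set (ℕ × ℕ × ℕ))
    (h1 : ∀ r ∈ R, r.2.2 = 0 ∧ (r.1 = 0 ∨ r.2.1 = 0)) (h2 : ∀ r ∈ R, (r.2.1, r.1, r.2.2) ∈ R) : R ∈ P := by
  induction R using mv_wf.transGen.induction with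
  | _ R ih =>
    rw [hP R]
    rintro ⟨x, y, z⟩ hq h0 hc
    obtain ⟨hz, hxy⟩ := h1 _ hq
    simp only at hz hxy
    subst hz
    have hne : ¬ (x = 0 ∧ y = 0) := by
      rintro ⟨rfl, rfl⟩
      exact h0 rfl
    have hq' : ((y, x, 0) : ℕ × ℕ × ℕ) ∈ R \ {r : ℕ × ℕ × ℕ | (x, y, 0) ≤ r} := by
      refine ⟨h2 _ hq, fun h => ?_⟩
      have h3 : x ≤ y ∧ y ≤ x ∧ 0 ≤ 0 := h
      omega
    have h0' : ((y, x, 0) : ℕ × ℕ × ℕ) ≠ 0 := by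
      intro h
      have h3 := congrArg Prod.fst h
      have h4 := congrArg (fun r : ℕ × ℕ × ℕ => r.2.1) h
      simp only [Prod.fst_zero, Prod.snd_zero] at h3 h4
      exact hne ⟨h4, h3⟩
    refine (hP _).1 hc _ hq' h0' (ih _ ?_ ?_ ?_)
    · exact Relation.TransGen.head ⟨_, hq', h0', rfl⟩ (Relation.TransGen.single ⟨_, hq, h0, rfl⟩)
    · exact fun r hr => h1 r hr.1.1
    · rintro ⟨a, b, c⟩ hr
      refine ⟨⟨h2 _ hr.1.1, fun h => hr.2 ?_⟩, fun h => hr.1.2 ?_⟩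
      · have h3 : x ≤ b ∧ y ≤ a ∧ 0 ≤ c := h
        exact (show y ≤ a ∧ x ≤ b ∧ 0 ≤ c from ⟨h3.2.1, h3.1, h3.2.2⟩)
      · have h3 : y ≤ b ∧ x ≤ a ∧ 0 ≤ c := h
        exact (show x ≤ a ∧ y ≤ b ∧ 0 ≤ c from ⟨h3.2.1, h3.1, h3.2.2⟩)

/-- Two rows with `n` and `m` cells. -/
def Row (n m : ℕ) : Set (ℕ × ℕ × ℕ) :=
  {r | r.2.1 = 0 ∧ ((r.1 = 0 ∧ r.2.2 < n) ∨ (r.1 = 1 ∧ r.2.2 < m))}

theorem row_cut1 {n m j : ℕ} (hj : j ≤ m) : Row n m \ {r : ℕ × ℕ × ℕ | (1, 0, j) ≤ r} = Row n j := by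
  ext ⟨x, y, z⟩
  have h : ((1, 0, j) : ℕ × ℕ × ℕ) ≤ (x, y, z) ↔ 1 ≤ x ∧ 0 ≤ y ∧ j ≤ z := Iff.rfl
  simp only [Row, mem_sdiff, mem_ofPred_eq, h]
  omega

theorem row_cut0 {n m j : ℕ} (hj : j ≤ n) :
    Row n m \ {r : ℕ × ℕ × ℕ | (0, 0, j) ≤ r} = Row j (min m j) := by
  ext ⟨x, y, z⟩
  have h : ((0, 0, j) : ℕ × ℕ × ℕ) ≤ (x, y, z) ↔ 0 ≤ x ∧ 0 ≤ y ∧ j ≤ z := Iff.rfl
  simp only [Row, mem_sdiff, mem_ofPred_eq, h]
  omega

theorem row_mem {P : Set (Set (ℕ × ℕ × ℕ))} (hP : Outcome P) (n : ℕ) : Row (n + 1) n ∈ P := by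
  induction n using Nat.strong_induction_on with
  | _ n ih =>
    rw [hP]
    rintro ⟨x, y, z⟩ ⟨hy, hq⟩ h0 hc
    simp only at hy hq
    subst hy
    rcases hq with ⟨rfl, hz⟩ | ⟨rfl, hz⟩
    · have hz0 : z ≠ 0 := by
        rintro rfl
        exact h0 rfl
      rw [row_cut0 (by omega)] at hc
      refine (hP _).1 hc (1, 0, z - 1) ⟨rfl, Or.inr ⟨rfl, ?_⟩⟩ (by simp) ?_
      · show z - 1 < min n z
        omega
      · rw [row_cut1 (by omega)]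
        have h1 := ih (z - 1) (by omega)
        rwa [show z - 1 + 1 = z by omega] at h1
    · rw [row_cut1 (by omega)] at hc
      refine (hP _).1 hc (0, 0, z + 1) ⟨rfl, Or.inl ⟨rfl, ?_⟩⟩ (by simp) ?_
      · show z + 1 < n + 1
        omega
      · rw [row_cut0 (by omega), show min z (z + 1) = z by omega]
        exact ih z hz

/-- Two infinite rows are lost for the player to move. -/
theorem rows_mem {P : Set (Set (ℕ × ℕ × ℕ))} (hP : Outcome P) :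
    {r : ℕ × ℕ × ℕ | r.2.1 = 0 ∧ r.1 < 2} ∈ P := by
  rw [hP]
  rintro ⟨x, y, z⟩ ⟨hy, hx⟩ h0 hc
  simp only at hy hx
  subst hy
  obtain rfl | rfl : x = 0 ∨ x = 1 := by omega
  · have hz0 : z ≠ 0 := by
      rintro rfl
      exact h0 rfl
    have e1 : {r : ℕ × ℕ × ℕ | r.2.1 = 0 ∧ r.1 < 2} \ {r : ℕ × ℕ × ℕ | (0, 0, z) ≤ r} = Row z z := by
      ext ⟨a, b, c⟩
      have h : ((0, 0, z) : ℕ × ℕ × ℕ) ≤ (a, b, c) ↔ 0 ≤ a ∧ 0 ≤ b ∧ z ≤ c := Iff.rfl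
      simp only [Row, mem_sdiff, mem_ofPred_eq, h]
      omega
    rw [e1] at hc
    refine (hP _).1 hc (1, 0, z - 1) ⟨rfl, Or.inr ⟨rfl, ?_⟩⟩ (by simp) ?_
    · show z - 1 < z
      omega
    · rw [row_cut1 (by omega)]
      have h1 := row_mem hP (z - 1)
      rwa [show z - 1 + 1 = z by omega] at h1
  · refine (hP _).1 hc (0, 0, z + 1) ⟨⟨rfl, by norm_num⟩, fun h => ?_⟩ (by simp) ?_
    · have h3 : 1 ≤ 0 ∧ 0 ≤ 0 ∧ z ≤ z + 1 := h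
      omega
    · have e1 : ({r : ℕ × ℕ × ℕ | r.2.1 = 0 ∧ r.1 < 2} \ {r : ℕ × ℕ × ℕ | (1, 0, z) ≤ r}) \
          {r : ℕ × ℕ × ℕ | (0, 0, z + 1) ≤ r} = Row (z + 1) z := by
        ext ⟨a, b, c⟩
        have h : ((1, 0, z) : ℕ × ℕ × ℕ) ≤ (a, b, c) ↔ 1 ≤ a ∧ 0 ≤ b ∧ z ≤ c := Iff.rfl
        have h' : ((0, 0, z + 1) : ℕ × ℕ × ℕ) ≤ (a, b, c) ↔ 0 ≤ a ∧ 0 ≤ b ∧ z + 1 ≤ c := Iff.rfl
        simp only [Row, mem_sdiff, mem_ofPred_eq, h, h']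
        omega
      rw [e1]
      exact row_mem hP z

/-- Exchange of the first and the third coordinate. -/
def swp : (ℕ × ℕ × ℕ) ≃o (ℕ × ℕ × ℕ) where
  toFun r := (r.2.2, r.2.1, r.1)
  invFun r := (r.2.2, r.2.1, r.1)
  left_inv _ := rfl
  right_inv _ := rfl
  map_rel_iff' := by
    rintro ⟨a, b, c⟩ ⟨x, y, z⟩
    show (c ≤ z ∧ b ≤ y ∧ a ≤ x) ↔ (a ≤ x ∧ b ≤ y ∧ c ≤ z)
    tauto

theorem cross_mem {P : Set (Set (ℕ × ℕ × ℕ))} (hP : Outcome P) :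
    {r : ℕ × ℕ × ℕ | r.2.2 = 0 ∧ (r.1 = 0 ∨ r.2.1 = 0)} ∈ P :=
  arms hP _ (fun _ hr => hr) fun _ hr => ⟨hr.1, hr.2.symm⟩

theorem not_wins_one {P : Set (Set (ℕ × ℕ × ℕ))} (hP : Outcome P) : ((1, 0, 0) : ℕ × ℕ × ℕ) ∉ Wins P univ := by
  intro h
  have h' : ((0, 0, 1) : ℕ × ℕ × ℕ) ∈ Wins P univ := wins_iso hP swp h
  refine (hP _).1 h'.2.2 (1, 1, 0) ⟨mem_univ _, fun h => ?_⟩ (by simp) ?_
  · have h3 : 0 ≤ 1 ∧ 0 ≤ 1 ∧ 1 ≤ 0 := h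
    omega
  · have e1 : ((univ : Set (ℕ × ℕ × ℕ)) \ {r | (0, 0, 1) ≤ r}) \ {r | (1, 1, 0) ≤ r} =
        {r : ℕ × ℕ × ℕ | r.2.2 = 0 ∧ (r.1 = 0 ∨ r.2.1 = 0)} := by
      ext ⟨a, b, c⟩
      have h : ((0, 0, 1) : ℕ × ℕ × ℕ) ≤ (a, b, c) ↔ 0 ≤ a ∧ 0 ≤ b ∧ 1 ≤ c := Iff.rfl
      have h' : ((1, 1, 0) : ℕ × ℕ × ℕ) ≤ (a, b, c) ↔ 1 ≤ a ∧ 1 ≤ b ∧ 0 ≤ c := Iff.rfl
      simp only [mem_sdiff, mem_univ, true_and, mem_ofPred_eq, h, h']
      omega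
    rw [e1]
    exact cross_mem hP

theorem not_wins_two {P : Set (Set (ℕ × ℕ × ℕ))} (hP : Outcome P) : ((2, 0, 0) : ℕ × ℕ × ℕ) ∉ Wins P univ := by
  intro h'
  refine (hP _).1 h'.2.2 (0, 1, 0) ⟨mem_univ _, fun h => ?_⟩ (by simp) ?_
  · have h3 : 2 ≤ 0 ∧ 0 ≤ 1 ∧ 0 ≤ 0 := h
    omega
  · have e1 : ((univ : Set (ℕ × ℕ × ℕ)) \ {r | (2, 0, 0) ≤ r}) \ {r | (0, 1, 0) ≤ r} =
        {r : ℕ × ℕ × ℕ | r.2.1 = 0 ∧ r.1 < 2} := by
      ext ⟨a, b, c⟩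
      have h : ((2, 0, 0) : ℕ × ℕ × ℕ) ≤ (a, b, c) ↔ 2 ≤ a ∧ 0 ≤ b ∧ 0 ≤ c := Iff.rfl
      have h' : ((0, 1, 0) : ℕ × ℕ × ℕ) ≤ (a, b, c) ↔ 0 ≤ a ∧ 1 ≤ b ∧ 0 ≤ c := Iff.rfl
      simp only [mem_sdiff, mem_univ, true_and, mem_ofPred_eq, h, h']
      omega
    rw [e1]
    exact rows_mem hP

theorem not_wins_diag {P : Set (Set (ℕ × ℕ × ℕ))} (hP : Outcome P) : ((1, 1, 0) : ℕ × ℕ × ℕ) ∉ Wins P univ := by
  intro h'
  refine (hP _).1 h'.2.2 (0, 0, 1) ⟨mem_univ _, fun h => ?_⟩ (by simp) ?_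
  · have h3 : 1 ≤ 0 ∧ 1 ≤ 0 ∧ 0 ≤ 1 := h
    omega
  · have e1 : ((univ : Set (ℕ × ℕ × ℕ)) \ {r | (1, 1, 0) ≤ r}) \ {r | (0, 0, 1) ≤ r} =
        {r : ℕ × ℕ × ℕ | r.2.2 = 0 ∧ (r.1 = 0 ∨ r.2.1 = 0)} := by
      ext ⟨a, b, c⟩
      have h : ((0, 0, 1) : ℕ × ℕ × ℕ) ≤ (a, b, c) ↔ 0 ≤ a ∧ 0 ≤ b ∧ 1 ≤ c := Iff.rfl
      have h' : ((1, 1, 0) : ℕ × ℕ × ℕ) ≤ (a, b, c) ↔ 1 ≤ a ∧ 1 ≤ b ∧ 0 ≤ c := Iff.rfl
      simp only [mem_sdiff, mem_univ, true_and, mem_ofPred_eq, h, h']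
      omega
    rw [e1]
    exact cross_mem hP

/-- **Only finitely many first moves on `ℕ³` can win.** There is exactly one set `P` of lost positions. In every position the
winning moves form a finite antichain. On the full board they are invariant under all automorphisms of the order, none of
`(1, 0, 0)`, `(2, 0, 0)`, `(1, 1, 0)` is winning, and a point which is not a winning first move is a winning reply to only finitely
many first moves. -/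
theorem result : ∃ P : Set (Set (ℕ × ℕ × ℕ)), Outcome P ∧ (∀ Q, Outcome Q → Q = P) ∧
    (∀ R, (Wins P R).Finite ∧ IsAntichain (· ≤ ·) (Wins P R)) ∧
    (∀ q ∉ Wins P univ, {p : ℕ × ℕ × ℕ | q ∈ Wins P (univ \ {r | p ≤ r})}.Finite) ∧
    (∀ e : (ℕ × ℕ × ℕ) ≃o (ℕ × ℕ × ℕ), ∀ p ∈ Wins P univ, e p ∈ Wins P univ) ∧
    (1, 0, 0) ∉ Wins P univ ∧ (2, 0, 0) ∉ Wins P univ ∧ (1, 1, 0) ∉ Wins P univ := by
  obtain ⟨P, hP⟩ := exists_outcome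
  exact ⟨P, hP, fun Q hQ => outcome_unique hP hQ, fun R => ⟨wins_finite hP R, wins_antichain hP R⟩,
    fun q hq => replies_finite hP hq, fun e p hp => wins_iso hP e hp, not_wins_one hP, not_wins_two hP, not_wins_diag hP⟩

end Pool.Agent.Results.MP_69fc81_co.FirstMoves
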