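import Mathlib

/-!
# Chomp on `ℕ ^ d`: the parity of the number of rays

A position of Chomp is a set `R` of points of `ℕ ^ d`; a move chooses a point `q ≠ 0` of `R` and
removes all points `x ≥ q`. Its Sprague-Grundy value `G R` is the least ordinal number which is not
the value of a position reached by a move; the player to move loses if and only if `G R = 0`.

Let `R` be contained, up to finitely many points, in the union of `r` axis-parallel rays, each of
which meets `R` in infinitely many points: coordinate axes, and at most one further ray, which is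
parallel to one of these axes. If all these rays are axes then `G R = ω * (r mod 2) + n` for a natural
number `n`. If `r` is odd then `G R` is infinite also with a further ray. In particular the player to
move wins if `r` is odd.

Proof, `r` odd: let `G R` be finite. Cut a ray of `R` (the further one, if there is one) at points `p`
farther and farther out. These positions have different values, also different from `G R`, so all but
finitely many values are larger than `G R` and there is a move `q` to a position of the value `G R`.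
The point `q` is not below `p`, and no point `q` is used for two of the points `p`, since there would
be a move between two positions of the same value. So for some `p` the point `q` is on another ray, and
then an odd number of axes is left. `r` even, axes only: if `G R` is infinite then all natural numbers
are values of positions reached by moves; cutting an axis leads to infinite values, and only finitely
many moves are left. Both by induction on the number of axes. The upper bound for `r` odd: all but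
finitely many moves lead to finite values.
-/

set_option autoImplicit false

open Ordinal

namespace Pool.Agent.Results.MP_69fc81_co.OddRays

/-- `G` is the Sprague-Grundy function of Chomp on `ℕ ^ d`: the value of a position `R` is the least
ordinal number which is not the value of one of the positions reached from `R` by a move `q ∈ R`,
`q ≠ 0`. -/
def IsGrundy {d : ℕ} (G : Set (Fin d → ℕ) → Ordinal.{0}) : Prop :=
  ∀ R : Set (Fin d → ℕ),
    IsLeast {o : Ordinal.{0} | ∀ q ∈ R, q ≠ 0 → G (R \ {x : Fin d → ℕ | q ≤ x}) ≠ o} (G R)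

/-- The ray in direction `i` through `b`: the points which agree with `b` in all coordinates
different from the `i`-th. -/
def ray {d : ℕ} (i : Fin d) (b : Fin d → ℕ) : Set (Fin d → ℕ) := {x | ∀ k, k ≠ i → x k = b k}

variable {d : ℕ}

/-! ### The Sprague-Grundy function -/

theorem wf : WellFounded (fun R' R : Set (Fin d → ℕ) =>
    ∃ q ∈ R, q ≠ 0 ∧ R' = R \ {x : Fin d → ℕ | q ≤ x}) := by
  rw [wellFounded_iff_isEmpty_descending_chain]
  refine ⟨fun ⟨f, hf⟩ => ?_⟩
  choose q hq h0 hfq using hf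
  have hanti : Antitone f := antitone_nat_of_succ_le fun n => by
    rw [hfq n]
    exact Set.sdiff_subset
  obtain ⟨m, n, hmn, hle⟩ := (wellQuasiOrdered_le (α := Fin d → ℕ)) q
  have h1 : q n ∈ f (m + 1) := hanti (Nat.succ_le_of_lt hmn) (hq n)
  rw [hfq m] at h1
  exact h1.2 hle

theorem free_nonempty (R : Set (Fin d → ℕ)) (F : (Fin d → ℕ) → Ordinal.{0}) :
    {o : Ordinal.{0} | ∀ q ∈ R, q ≠ 0 → F q ≠ o}.Nonempty := by
  obtain ⟨b, hb⟩ := Ordinal.bddAbove_of_small (s := Set.range F)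
  refine ⟨Order.succ b, fun q _ _ h => ?_⟩
  have h1 : F q ≤ b := hb ⟨q, rfl⟩
  rw [h] at h1
  exact absurd h1 (not_le.2 (Order.lt_succ b))

theorem exists_grundy : ∃ G : Set (Fin d → ℕ) → Ordinal.{0}, IsGrundy G := by
  classical
  let G : Set (Fin d → ℕ) → Ordinal.{0} := wf.fix (C := fun _ => Ordinal.{0}) (fun R L =>
    sInf {o : Ordinal.{0} | ∀ q (h1 : q ∈ R) (h2 : q ≠ 0), L (R \ {x | q ≤ x}) ⟨q, h1, h2, rfl⟩ ≠ o})
  have hG : ∀ R, G R = sInf {o : Ordinal.{0} | ∀ q ∈ R, q ≠ 0 → G (R \ {x | q ≤ x}) ≠ o} := by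
    intro R
    exact WellFounded.fix_eq _ _ _
  refine ⟨G, fun R => ?_⟩
  have hne := free_nonempty R (fun q => G (R \ {x | q ≤ x}))
  refine ⟨?_, fun o ho => ?_⟩
  · rw [hG R]
    exact csInf_mem hne
  · rw [hG R]
    exact csInf_le' ho

theorem grundy_unique {G H : Set (Fin d → ℕ) → Ordinal.{0}} (hG : IsGrundy G) (hH : IsGrundy H) :
    G = H := by
  funext R
  induction R using (wf (d := d)).induction with
  | _ R ih =>
    have h1 : {o : Ordinal.{0} | ∀ q ∈ R, q ≠ 0 → G (R \ {x : Fin d → ℕ | q ≤ x}) ≠ o} =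
        {o : Ordinal.{0} | ∀ q ∈ R, q ≠ 0 → H (R \ {x : Fin d → ℕ | q ≤ x}) ≠ o} := by
      ext o
      refine forall_congr' fun q => forall_congr' fun h1 => forall_congr' fun h2 => ?_
      rw [ih _ ⟨q, h1, h2, rfl⟩]
    have h2 := hG R
    rw [h1] at h2
    exact h2.unique (hH R)

theorem IsGrundy.ne {G : Set (Fin d → ℕ) → Ordinal.{0}} (hG : IsGrundy G) {R : Set (Fin d → ℕ)}
    {q : Fin d → ℕ} (hq : q ∈ R) (h0 : q ≠ 0) : G (R \ {x | q ≤ x}) ≠ G R :=
  (hG R).1 q hq h0

/-- The player to move loses if and only if the value is `0`: it is `0` if and only if no move leads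
to a position of the value `0`. -/
theorem IsGrundy.zero_iff {G : Set (Fin d → ℕ) → Ordinal.{0}} (hG : IsGrundy G)
    (R : Set (Fin d → ℕ)) : G R = 0 ↔ ∀ q ∈ R, q ≠ 0 → G (R \ {x | q ≤ x}) ≠ 0 := by
  refine ⟨fun h q hq h0 => ?_, fun h => ?_⟩
  · rw [← h]
    exact hG.ne hq h0
  · exact le_antisymm ((hG R).2 h) zero_le

theorem IsGrundy.exists_move {G : Set (Fin d → ℕ) → Ordinal.{0}} (hG : IsGrundy G)
    {R : Set (Fin d → ℕ)} {o : Ordinal.{0}} (ho : o < G R) :
    ∃ q ∈ R, q ≠ 0 ∧ G (R \ {x | q ≤ x}) = o := by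
  by_contra hcon
  push Not at hcon
  exact absurd ((hG R).2 (show o ∈ _ from fun q hq h0 => hcon q hq h0)) (not_le.2 ho)

/-- A move `x ≤ y` after the move `y` is the move `x`. -/
theorem diff_diff_of_le (R : Set (Fin d → ℕ)) {x y : Fin d → ℕ} (h : x ≤ y) :
    (R \ {z | y ≤ z}) \ {z | x ≤ z} = R \ {z | x ≤ z} := by
  ext z
  simp only [Set.mem_sdiff, Set.mem_ofPred_eq]
  exact ⟨fun h1 => ⟨h1.1.1, h1.2⟩, fun h1 => ⟨⟨h1.1, fun h2 => h1.2 (h.trans h2)⟩, h1.2⟩⟩

theorem diff_comm' (R : Set (Fin d → ℕ)) (x y : Fin d → ℕ) :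
    (R \ {z | y ≤ z}) \ {z | x ≤ z} = (R \ {z | x ≤ z}) \ {z | y ≤ z} := by
  ext z
  simp only [Set.mem_sdiff, Set.mem_ofPred_eq]
  exact ⟨fun h => ⟨⟨h.1.1, h.2⟩, h.1.2⟩, fun h => ⟨⟨h.1.1, h.2⟩, h.1.2⟩⟩

theorem finite_Iio {o : Ordinal.{0}} (h : o < ω) : (Set.Iio o).Finite := by
  obtain ⟨n, rfl⟩ := lt_omega0.1 h
  refine ((Set.finite_Iio n).image (fun m : ℕ => (m : Ordinal.{0}))).subset fun a ha => ?_
  obtain ⟨m, rfl⟩ := lt_omega0.1 (lt_trans ha h)
  exact ⟨m, by simpa using ha, rfl⟩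

/-! ### Moves far out -/

theorem key {G : Set (Fin d → ℕ) → Ordinal.{0}} (hG : IsGrundy G) {R : Set (Fin d → ℕ)}
    (hR : G R < ω) {C E : Set (Fin d → ℕ)} (hC : C.Infinite) (hCR : C ⊆ R)
    (h0 : (0 : Fin d → ℕ) ∉ C) (hch : ∀ x ∈ C, ∀ y ∈ C, x ≤ y ∨ y ≤ x) (hE : E.Finite) :
    ∃ p ∈ C, ∃ q ∈ R, q ≠ 0 ∧ ¬ q ≤ p ∧ ¬ p ≤ q ∧ q ∉ E ∧
      G ((R \ {x | p ≤ x}) \ {x | q ≤ x}) = G R := by
  by_contra hcon
  push Not at hcon
  -- all but finitely many cuts have a value larger than that of `R`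
  have hsm : (C ∩ {p | G (R \ {x | p ≤ x}) < G R}).Finite := by
    by_contra hinf
    obtain ⟨x, hx, y, hy, hxy, hf⟩ := Set.Infinite.exists_ne_map_eq_of_mapsTo
      (s := C ∩ {p | G (R \ {x | p ≤ x}) < G R}) (t := Set.Iio (G R))
      (f := fun p => G (R \ {x | p ≤ x})) hinf (fun p hp => hp.2) (finite_Iio hR)
    have main : ∀ x ∈ C, ∀ y ∈ C, x ≠ y → G (R \ {z | x ≤ z}) = G (R \ {z | y ≤ z}) → x ≤ y →
        False := by
      intro x hx y hy hxy hf hle
      have h1 : x ∈ R \ {z | y ≤ z} := ⟨hCR hx, fun h => hxy (le_antisymm hle h)⟩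
      have h2 := hG.ne h1 (fun h => h0 (h ▸ hx))
      rw [diff_diff_of_le R hle] at h2
      exact h2 hf
    rcases hch x hx.1 y hy.1 with h | h
    · exact main x hx.1 y hy.1 hxy hf h
    · exact main y hy.1 x hx.1 hxy.symm hf.symm h
  have hC' : (C \ (C ∩ {p | G (R \ {x | p ≤ x}) < G R})).Infinite := hC.sdiff hsm
  have h1 : ∀ p ∈ C \ (C ∩ {p | G (R \ {x | p ≤ x}) < G R}), ∃ q ∈ E, ¬ q ≤ p ∧
      G ((R \ {x | p ≤ x}) \ {x | q ≤ x}) = G R := by
    intro p hp
    have hp0 : p ≠ 0 := fun h => h0 (h ▸ hp.1)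
    have h2 : G R < G (R \ {x | p ≤ x}) :=
      lt_of_le_of_ne (not_lt.1 fun h => hp.2 ⟨hp.1, h⟩) (hG.ne (hCR hp.1) hp0).symm
    obtain ⟨q, hq, hq0, hqP⟩ := hG.exists_move h2
    have h3 : ¬ q ≤ p := by
      intro hle
      rw [diff_diff_of_le R hle] at hqP
      exact hG.ne hq.1 hq0 hqP
    refine ⟨q, ?_, h3, hqP⟩
    by_contra hqE
    exact hcon p hp.1 q hq.1 hq0 h3 hq.2 hqE hqP
  choose! f hfE hfle hfP using h1
  obtain ⟨x, hx, y, hy, hxy, hf⟩ := hC'.exists_ne_map_eq_of_mapsTo (f := f) (t := E)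
    (fun p hp => hfE p hp) hE
  have main : ∀ x ∈ C \ (C ∩ {p | G (R \ {x | p ≤ x}) < G R}),
      ∀ y ∈ C \ (C ∩ {p | G (R \ {x | p ≤ x}) < G R}), x ≠ y → f x = f y → x ≤ y → False := by
    intro x hx y hy hxy hf hle
    have h2 : x ∈ (R \ {z | y ≤ z}) \ {z | f y ≤ z} := by
      refine ⟨⟨hCR hx.1, fun h => hxy (le_antisymm hle h)⟩, ?_⟩
      rw [← hf]
      exact hfle x hx
    have h3 := hG.ne h2 (fun h => h0 (h ▸ hx.1))
    rw [hfP y hy, diff_comm' _ x (f y), diff_diff_of_le R hle, ← hf, hfP x hx] at h3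
    exact h3 rfl
  rcases hch x hx.1 y hy.1 with h | h
  · exact main x hx y hy hxy hf h
  · exact main y hy x hx hxy.symm hf.symm h

/-! ### Rays -/

theorem ray_chain {i : Fin d} {b x y : Fin d → ℕ} (hx : x ∈ ray i b) (hy : y ∈ ray i b) :
    x ≤ y ∨ y ≤ x := by
  have main : ∀ x ∈ ray i b, ∀ y ∈ ray i b, x i ≤ y i → x ≤ y := by
    intro x hx y hy h k
    by_cases hk : k = i
    · rw [hk]; exact h
    · rw [hx k hk, hy k hk]
  rcases le_total (x i) (y i) with h | h
  · exact Or.inl (main x hx y hy h)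
  · exact Or.inr (main y hy x hx h)

theorem below_finite (p : Fin d → ℕ) : {x : Fin d → ℕ | x ≤ p}.Finite :=
  (Set.finite_Icc 0 p).subset fun _ hx => ⟨fun _ => Nat.zero_le _, hx⟩

theorem cut_finite {i : Fin d} {b p : Fin d → ℕ} (hp : p ∈ ray i b) (U : Set (Fin d → ℕ))
    (hU : ∀ x ∈ U, ¬ p ≤ x) : (U ∩ ray i b).Finite := by
  refine (below_finite p).subset fun x hx => ?_
  rcases ray_chain hp hx.2 with h | h
  · exact absurd h (hU x hx.1)
  · exact h

/-- A point which is not on the axis `k` is below no point of this axis. -/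
theorem not_le_axis {k : Fin d} {p x : Fin d → ℕ} (hp : ∃ l, l ≠ k ∧ p l ≠ 0)
    (hx : x ∈ ray k 0) : ¬ p ≤ x := by
  obtain ⟨l, hl, hpl⟩ := hp
  intro h
  have h1 := h l
  rw [hx l hl] at h1
  exact hpl (Nat.le_zero.1 h1)

/-- A nonzero point of the axis `i` has a nonzero coordinate different from the `k`-th. -/
theorem off_axis {i k : Fin d} (hik : i ≠ k) {p : Fin d → ℕ} (hp : p ∈ ray i 0) (h0 : p ≠ 0) :
    ∃ l, l ≠ k ∧ p l ≠ 0 := by
  refine ⟨i, hik, fun h => h0 ?_⟩
  funext l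
  by_cases hl : l = i
  · rw [hl]; exact h
  · exact hp l hl

/-- If all cuts of axes lead to finite values then a value `ω + n` is not exceeded. -/
theorem exists_le_omega_add {G : Set (Fin d → ℕ) → Ordinal.{0}} (hG : IsGrundy G)
    {R E : Set (Fin d → ℕ)} (hE : E.Finite)
    (h : ∀ q ∈ R, q ≠ 0 → q ∉ E → G (R \ {x | q ≤ x}) < ω) : ∃ n : ℕ, G R ≤ ω + n := by
  by_contra hcon
  push Not at hcon
  have h1 : ∀ m : ℕ, ∃ q ∈ E, G (R \ {x | q ≤ x}) = ω + (m : Ordinal.{0}) := by
    intro m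
    obtain ⟨q, hq, hq0, hqm⟩ := hG.exists_move (hcon m)
    refine ⟨q, ?_, hqm⟩
    by_contra hqE
    have h2 := h q hq hq0 hqE
    rw [hqm] at h2
    exact absurd h2 (not_lt.2 (le_add_right le_rfl))
  choose f hfE hfG using h1
  obtain ⟨a, -, b, -, hab, hf⟩ := Set.infinite_univ.exists_ne_map_eq_of_mapsTo (f := f)
    (t := E) (fun m _ => hfE m) hE
  have h2 := hfG a
  rw [hf, hfG b] at h2
  have h3 : (b : Ordinal.{0}) = a := by simpa using h2
  exact hab (by exact_mod_cast h3.symm)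

/-- **Axes only**: the value is infinite if their number is odd, and finite if it is even. -/
theorem axes {G : Set (Fin d → ℕ) → Ordinal.{0}} (hG : IsGrundy G) : ∀ (n : ℕ)
    (I : Finset (Fin d)) (R : Set (Fin d → ℕ)), I.card = n → (∀ j ∈ I, (R ∩ ray j 0).Infinite) →
    (R \ ⋃ j ∈ I, ray j 0).Finite → (Odd n → ω ≤ G R) ∧ (Even n → G R < ω) := by
  intro n
  induction n using Nat.strong_induction_on with
  | _ n ih =>
  intro I R hn hinf hfin
  refine ⟨fun hodd => ?_, fun heven => ?_⟩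
  · by_contra hlt
    rw [not_le] at hlt
    obtain ⟨i, hi⟩ : I.Nonempty := by
      rw [← Finset.card_pos, hn]
      exact hodd.pos
    obtain ⟨p, hp, q, hq, hq0, hqp, hpq, hqE, hU⟩ := key hG hlt (C := (R ∩ ray i 0) \ {0})
      ((hinf i hi).sdiff (Set.finite_singleton 0)) (fun x hx => hx.1.1) (fun h => h.2 rfl)
      (fun x hx y hy => ray_chain hx.1.2 hy.1.2) hfin
    have hp0 : p ≠ 0 := fun h => hp.2 h
    obtain ⟨j, hj, hqj⟩ : ∃ j ∈ I, q ∈ ray j 0 := by
      by_contra hcon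
      push Not at hcon
      refine hqE ⟨hq, ?_⟩
      simp only [Set.mem_iUnion, not_exists]
      exact fun j hj => hcon j hj
    have hji : j ≠ i := by
      rintro rfl
      rcases ray_chain hqj hp.1.2 with h | h
      · exact hqp h
      · exact hpq h
    have hc1 : ((I.erase i).erase j).card = n - 2 := by
      rw [Finset.card_erase_of_mem (Finset.mem_erase.2 ⟨hji, hj⟩), Finset.card_erase_of_mem hi, hn]
      omega
    have hn2 : 2 ≤ n := by
      have h1 : ({i, j} : Finset (Fin d)) ⊆ I := by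
        intro k hk
        rw [Finset.mem_insert, Finset.mem_singleton] at hk
        rcases hk with rfl | rfl
        · exact hi
        · exact hj
      have h2 := Finset.card_le_card h1
      rw [Finset.card_pair hji.symm, hn] at h2
      exact h2
    have hodd2 : Odd (n - 2) := by
      obtain ⟨m, hm⟩ := hodd
      exact ⟨m - 1, by omega⟩
    have hfin2 := (ih (n - 2) (by omega) _ ((R \ {x | p ≤ x}) \ {x | q ≤ x}) hc1
      (fun k hk => ?_) ?_).1 hodd2
    · rw [hU] at hfin2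
      exact absurd hfin2 (not_le.2 hlt)
    · rw [Finset.mem_erase, Finset.mem_erase] at hk
      refine (hinf k hk.2.2).mono fun x hx => ⟨⟨⟨hx.1, ?_⟩, ?_⟩, hx.2⟩
      · exact not_le_axis (off_axis hk.2.1.symm hp.1.2 hp0) hx.2
      · exact not_le_axis (off_axis hk.1.symm hqj hq0) hx.2
    · refine ((hfin.union (cut_finite hp.1.2 ((R \ {x | p ≤ x}) \ {x | q ≤ x})
        fun x hx => hx.1.2)).union (cut_finite hqj ((R \ {x | p ≤ x}) \ {x | q ≤ x})
        fun x hx => hx.2)).subset fun x hx => ?_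
      by_cases h1 : x ∈ ray i 0
      · exact Or.inl (Or.inr ⟨hx.1, h1⟩)
      by_cases h2 : x ∈ ray j 0
      · exact Or.inr ⟨hx.1, h2⟩
      refine Or.inl (Or.inl ⟨hx.1.1.1, fun h3 => hx.2 ?_⟩)
      simp only [Set.mem_iUnion] at h3 ⊢
      obtain ⟨k, hk, hxk⟩ := h3
      refine ⟨k, ?_, hxk⟩
      rw [Finset.mem_erase, Finset.mem_erase]
      exact ⟨fun h => h2 (h ▸ hxk), fun h => h1 (h ▸ hxk), hk⟩
  · by_contra hge
    rw [not_lt] at hge
    have h1 : ∀ m : ℕ, ∃ q ∈ R \ ⋃ j ∈ I, ray j 0, G (R \ {x | q ≤ x}) = (m : Ordinal.{0}) := by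
      intro m
      obtain ⟨q, hq, hq0, hqm⟩ := hG.exists_move (lt_of_lt_of_le (natCast_lt_omega0 m) hge)
      refine ⟨q, ⟨hq, fun hax => ?_⟩, hqm⟩
      simp only [Set.mem_iUnion] at hax
      obtain ⟨j, hj, hqj⟩ := hax
      have hn1 : 0 < n := by
        rw [← hn]
        exact Finset.card_pos.2 ⟨j, hj⟩
      have hodd : Odd (n - 1) := by
        obtain ⟨l, hl⟩ := heven
        exact ⟨l - 1, by omega⟩
      have h2 := (ih (n - 1) (by omega) (I.erase j) (R \ {x | q ≤ x})
        (by rw [Finset.card_erase_of_mem hj, hn]) (fun k hk => ?_) ?_).1 hodd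
      · rw [hqm] at h2
        exact absurd h2 (not_le.2 (natCast_lt_omega0 m))
      · rw [Finset.mem_erase] at hk
        exact (hinf k hk.2).mono fun x hx =>
          ⟨⟨hx.1, not_le_axis (off_axis hk.1.symm hqj hq0) hx.2⟩, hx.2⟩
      · refine (hfin.union (cut_finite hqj (R \ {x | q ≤ x}) fun x hx => hx.2)).subset
          fun x hx => ?_
        by_cases h2 : x ∈ ray j 0
        · exact Or.inr ⟨hx.1, h2⟩
        refine Or.inl ⟨hx.1.1, fun h3 => hx.2 ?_⟩
        simp only [Set.mem_iUnion] at h3 ⊢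
        obtain ⟨k, hk, hxk⟩ := h3
        exact ⟨k, Finset.mem_erase.2 ⟨fun h => h2 (h ▸ hxk), hk⟩, hxk⟩
    choose f hfE hfG using h1
    obtain ⟨a, -, b, -, hab, hf⟩ := Set.infinite_univ.exists_ne_map_eq_of_mapsTo (f := f)
      (t := R \ ⋃ j ∈ I, ray j 0) (fun m _ => hfE m) hfin
    have h2 := hfG a
    rw [hf, hfG b] at h2
    exact hab (by exact_mod_cast h2.symm)

/-- Axes only: the value is `ω * (r mod 2) + n` for some natural number `n`, where `r` is the number
of the axes. -/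
theorem axes_eq {G : Set (Fin d → ℕ) → Ordinal.{0}} (hG : IsGrundy G) {I : Finset (Fin d)}
    {R : Set (Fin d → ℕ)} (hinf : ∀ j ∈ I, (R ∩ ray j 0).Infinite)
    (hfin : (R \ ⋃ j ∈ I, ray j 0).Finite) :
    ∃ n : ℕ, G R = ω * ((I.card % 2 : ℕ) : Ordinal.{0}) + n := by
  rcases Nat.even_or_odd I.card with he | ho
  · obtain ⟨n, hn⟩ := lt_omega0.1 ((axes hG _ I R rfl hinf hfin).2 he)
    refine ⟨n, ?_⟩
    rw [Nat.even_iff.1 he, hn]
    simp
  · obtain ⟨n, hn⟩ := exists_le_omega_add hG hfin (R := R) (fun q hq hq0 hqE => by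
      obtain ⟨j, hj, hqj⟩ : ∃ j ∈ I, q ∈ ray j 0 := by
        by_contra hcon
        push Not at hcon
        refine hqE ⟨hq, ?_⟩
        simp only [Set.mem_iUnion, not_exists]
        exact fun j hj => hcon j hj
      have heven : Even (I.card - 1) := by
        obtain ⟨l, hl⟩ := ho
        exact ⟨l, by omega⟩
      refine (axes hG (I.card - 1) (I.erase j) (R \ {x | q ≤ x})
        (Finset.card_erase_of_mem hj) (fun k hk => ?_) ?_).2 heven
      · rw [Finset.mem_erase] at hk
        exact (hinf k hk.2).mono fun x hx =>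
          ⟨⟨hx.1, not_le_axis (off_axis hk.1.symm hqj hq0) hx.2⟩, hx.2⟩
      · refine (hfin.union (cut_finite hqj (R \ {x | q ≤ x}) fun x hx => hx.2)).subset
          fun x hx => ?_
        by_cases h2 : x ∈ ray j 0
        · exact Or.inr ⟨hx.1, h2⟩
        refine Or.inl ⟨hx.1.1, fun h3 => hx.2 ?_⟩
        simp only [Set.mem_iUnion] at h3 ⊢
        obtain ⟨k, hk, hxk⟩ := h3
        exact ⟨k, Finset.mem_erase.2 ⟨fun h => h2 (h ▸ hxk), hk⟩, hxk⟩)
    have h1 := (axes hG _ I R rfl hinf hfin).1 ho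
    have h2 : ω + (G R - ω) = G R := Ordinal.add_sub_cancel_of_le h1
    have h3 : G R - ω ≤ n := Ordinal.sub_le.2 hn
    obtain ⟨m, hm⟩ := lt_omega0.1 (lt_of_le_of_lt h3 (natCast_lt_omega0 n))
    refine ⟨m, ?_⟩
    rw [Nat.odd_iff.1 ho, ← h2, hm]
    simp

/-- An even number of axes and one further ray parallel to one of them. -/
theorem axes_and_ray {G : Set (Fin d → ℕ) → Ordinal.{0}} (hG : IsGrundy G) {I : Finset (Fin d)}
    {i : Fin d} {b : Fin d → ℕ} {R : Set (Fin d → ℕ)} (hi : i ∈ I) (hb : ∃ k, k ≠ i ∧ b k ≠ 0)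
    (hev : Odd (I.card + 1)) (hinf : ∀ j ∈ I, (R ∩ ray j 0).Infinite)
    (hinfb : (R ∩ ray i b).Infinite) (hE : (R \ ((⋃ j ∈ I, ray j 0) ∪ ray i b)).Finite) :
    ω ≤ G R := by
  by_contra hlt
  rw [not_le] at hlt
  obtain ⟨k₀, hk₀, hbk⟩ := hb
  have hC : ((R ∩ ray i b) \ {x | x ≤ b}).Infinite := hinfb.sdiff (below_finite b)
  have hCi : ∀ x ∈ (R ∩ ray i b) \ {x | x ≤ b}, x i ≠ 0 := by
    intro x hx h0
    refine hx.2 fun k => ?_
    by_cases hk : k = i
    · rw [hk, h0]; exact Nat.zero_le _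
    · rw [hx.1.2 k hk]
  obtain ⟨p, hp, q, hq, hq0, hqp, hpq, hqE, hU⟩ := key hG hlt hC (fun x hx => hx.1.1)
    (fun h => hCi 0 h rfl) (fun x hx y hy => ray_chain hx.1.2 hy.1.2) hE
  have hpk : p k₀ ≠ 0 := by rw [hp.1.2 k₀ hk₀]; exact hbk
  have hpi : p i ≠ 0 := hCi p hp
  have hpax : ∀ k : Fin d, ∃ l, l ≠ k ∧ p l ≠ 0 := by
    intro k
    by_cases hk : k = i
    · exact ⟨k₀, hk ▸ hk₀, hpk⟩
    · exact ⟨i, Ne.symm hk, hpi⟩
  obtain ⟨j, hj, hqj⟩ : ∃ j ∈ I, q ∈ ray j 0 := by
    by_contra hcon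
    push Not at hcon
    have hqb : q ∉ ray i b := by
      intro h
      rcases ray_chain h hp.1.2 with h1 | h1
      · exact hqp h1
      · exact hpq h1
    refine hqE ⟨hq, ?_⟩
    rintro (h | h)
    · simp only [Set.mem_iUnion] at h
      obtain ⟨j, hj, h⟩ := h
      exact hcon j hj h
    · exact hqb h
  have hodd : Odd (I.card - 1) := by
    obtain ⟨m, hm⟩ := hev
    have : 0 < I.card := Finset.card_pos.2 ⟨i, hi⟩
    exact ⟨m - 1, by omega⟩
  have h2 := (axes hG (I.card - 1) (I.erase j) ((R \ {x | p ≤ x}) \ {x | q ≤ x})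
    (Finset.card_erase_of_mem hj) (fun k hk => ?_) ?_).1 hodd
  · rw [hU] at h2
    exact absurd h2 (not_le.2 hlt)
  · rw [Finset.mem_erase] at hk
    refine (hinf k hk.2).mono fun x hx => ⟨⟨⟨hx.1, ?_⟩, ?_⟩, hx.2⟩
    · exact not_le_axis (hpax k) hx.2
    · exact not_le_axis (off_axis hk.1.symm hqj hq0) hx.2
  · refine ((hE.union (cut_finite hp.1.2 ((R \ {x | p ≤ x}) \ {x | q ≤ x})
      fun x hx => hx.1.2)).union (cut_finite hqj ((R \ {x | p ≤ x}) \ {x | q ≤ x})
      fun x hx => hx.2)).subset fun x hx => ?_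
    by_cases h1 : x ∈ ray i b
    · exact Or.inl (Or.inr ⟨hx.1, h1⟩)
    by_cases h2 : x ∈ ray j 0
    · exact Or.inr ⟨hx.1, h2⟩
    refine Or.inl (Or.inl ⟨hx.1.1.1, ?_⟩)
    rintro (h3 | h3)
    · apply hx.2
      simp only [Set.mem_iUnion] at h3 ⊢
      obtain ⟨k, hk, hxk⟩ := h3
      exact ⟨k, Finset.mem_erase.2 ⟨fun h => h2 (h ▸ hxk), hk⟩, hxk⟩
    · exact h1 h3

/-- **The parity of the number of rays decides whether the value is finite.** Chomp on `ℕ ^ d` has
exactly one Sprague-Grundy function `G`. Let the position `R` be contained, up to finitely many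
points, in the union of the axes `j ∈ I` and of the rays through `b.2` in direction `b.1`, `b ∈ B`,
each of which meets `R` in infinitely many points, where `B` has at most one element, and this one is
a ray different from but parallel to an axis in `I`. If `B` is empty then `G R = ω * (r mod 2) + n`
for a natural number `n`, where `r` is the number of rays. In general `G R` is infinite if the number
of rays is odd. -/
theorem result (d : ℕ) : ∃ G : Set (Fin d → ℕ) → Ordinal.{0}, IsGrundy G ∧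
    (∀ H, IsGrundy H → H = G) ∧
    ∀ (I : Finset (Fin d)) (B : Finset (Fin d × (Fin d → ℕ))) (R : Set (Fin d → ℕ)),
      B.card ≤ 1 → (∀ b ∈ B, b.1 ∈ I ∧ ∃ k, k ≠ b.1 ∧ b.2 k ≠ 0) →
      (∀ j ∈ I, (R ∩ ray j 0).Infinite) → (∀ b ∈ B, (R ∩ ray b.1 b.2).Infinite) →
      (R \ ((⋃ j ∈ I, ray j 0) ∪ ⋃ b ∈ B, ray b.1 b.2)).Finite →
      (B = ∅ → ∃ n : ℕ, G R = ω * ((I.card % 2 : ℕ) : Ordinal.{0}) + n) ∧
      (Odd (I.card + B.card) → ω ≤ G R) := by
  obtain ⟨G, hG⟩ := exists_grundy (d := d)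
  refine ⟨G, hG, fun H hH => grundy_unique hH hG, ?_⟩
  intro I B R hB hb hinf hinfB hfin
  rcases Nat.lt_or_ge B.card 1 with h | h
  · have hB0 : B = ∅ := Finset.card_eq_zero.1 (by omega)
    subst hB0
    have hfin' : (R \ ⋃ j ∈ I, ray j 0).Finite := by simpa using hfin
    exact ⟨fun _ => axes_eq hG hinf hfin',
      fun h2 => (axes hG _ I R rfl hinf hfin').1 (by simpa using h2)⟩
  · obtain ⟨b, rfl⟩ := Finset.card_eq_one.1 (le_antisymm hB h)
    have hb1 := hb b (Finset.mem_singleton_self b)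
    have hinfb := hinfB b (Finset.mem_singleton_self b)
    refine ⟨fun h3 => absurd h3 (Finset.singleton_ne_empty b), fun h2 => ?_⟩
    exact axes_and_ray hG hb1.1 hb1.2 (by simpa using h2) hinf hinfb (by simpa using hfin)

end Pool.Agent.Results.MP_69fc81_co.OddRays
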